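import Mathlib

/-!
# The energy inequality
-/

set_option autoImplicit false

namespace Pool.Agent.Lib_helper75.Bent

/-- the four-element index set -/
abbrev Quad : Type := ZMod 2 × ZMod 2

lemma sum_ZMod2 {A : Type} [AddCommMonoid A] (f : ZMod 2 → A) : ∑ z, f z = f 0 + f 1 :=
  Fin.sum_univ_two f

lemma sum_Quad {A : Type} [AddCommMonoid A] (f : Quad → A) :
    ∑ j, f j = (f (0, 0) + f (0, 1)) + (f (1, 0) + f (1, 1)) := by
  rw [Fintype.sum_prod_type, sum_ZMod2, sum_ZMod2, sum_ZMod2]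

lemma zmod2_cases (z : ZMod 2) : z = 0 ∨ z = 1 := by
  revert z; decide

/-- functions on `Quad` as pairs of pairs -/
def quadEquiv (P : Type) : (Quad → P) ≃ (P × P) × (P × P) where
  toFun p := ((p (0, 0), p (0, 1)), (p (1, 0), p (1, 1)))
  invFun a := fun j => if j.1 = 0 then (if j.2 = 0 then a.1.1 else a.1.2)
    else (if j.2 = 0 then a.2.1 else a.2.2)
  left_inv := by
    intro p
    funext j
    obtain ⟨a, b⟩ := j
    rcases zmod2_cases a with rfl | rfl <;> rcases zmod2_cases b with rfl | rfl <;> simp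
  right_inv := by
    intro a
    simp

lemma energy {P Γ : Type} [Fintype P] [Fintype Γ] [AddCommGroup Γ] (h2 : ∀ x : Γ, x + x = 0)
    (φ : P → Γ) :
    (Nat.card P : ℝ) ^ 4 ≤
      (Nat.card Γ : ℝ) * (Nat.card {p : Quad → P // ∑ j, φ (p j) = 0} : ℝ) := by
  classical
  let r : Γ → ℕ := fun h => Nat.card {a : P × P // φ a.1 + φ a.2 = h}
  have e1 : Nat.card {p : Quad → P // ∑ j, φ (p j) = 0} = ∑ h : Γ, (r h) ^ 2 := by
    have e : {p : Quad → P // ∑ j, φ (p j) = 0} ≃
        (h : Γ) × ({a : P × P // φ a.1 + φ a.2 = h} × {a : P × P // φ a.1 + φ a.2 = h}) :=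
      { toFun := fun p => ⟨φ (p.1 (0, 0)) + φ (p.1 (0, 1)),
          ⟨(p.1 (0, 0), p.1 (0, 1)), rfl⟩, ⟨(p.1 (1, 0), p.1 (1, 1)), by
            have h0 := p.2
            rw [sum_Quad] at h0
            rw [eq_neg_of_add_eq_zero_right h0]
            exact neg_eq_of_add_eq_zero_right (h2 _)⟩⟩
        invFun := fun z => ⟨(quadEquiv P).symm (z.2.1.1, z.2.2.1), by
          have h1 := z.2.1.2
          have h3 := z.2.2.2
          rw [sum_Quad]
          simp only [quadEquiv, Equiv.coe_fn_symm_mk]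
          simp only [if_true, one_ne_zero, if_false]
          rw [h1, h3, h2]⟩
        left_inv := by
          rintro ⟨p, hp⟩
          apply Subtype.ext
          exact (quadEquiv P).symm_apply_apply p
        right_inv := by
          rintro ⟨h, ⟨a, rfl⟩, ⟨b, hb⟩⟩
          rfl }
    rw [Nat.card_congr e, Nat.card_sigma]
    apply Finset.sum_congr rfl
    intro h _
    rw [Nat.card_prod, sq]
  have e2 : ∑ h : Γ, r h = (Nat.card P) ^ 2 := by
    have e : ((h : Γ) × {a : P × P // φ a.1 + φ a.2 = h}) ≃ P × P :=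
      Equiv.sigmaFiberEquiv (fun a : P × P => φ a.1 + φ a.2)
    rw [← Nat.card_sigma, Nat.card_congr e, Nat.card_prod, sq]
  have e3 := sq_sum_le_card_mul_sum_sq (s := (Finset.univ : Finset Γ)) (f := fun h => (r h : ℝ))
  rw [Finset.card_univ, ← Nat.card_eq_fintype_card] at e3
  have e4 : (∑ h : Γ, (r h : ℝ)) = (Nat.card P : ℝ) ^ 2 := by exact_mod_cast e2
  have e5 : (∑ h : Γ, (r h : ℝ) ^ 2) =
      (Nat.card {p : Quad → P // ∑ j, φ (p j) = 0} : ℝ) := by
    rw [e1]; push_cast; rfl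
  rw [e4, e5, ← pow_mul] at e3
  exact e3

end Pool.Agent.Lib_helper75.Bent
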