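import Mathlib
import Pool.Agent.Lib_helper75.Bent.Energy

/-!
# Signs, dot products and the domain `F_2^{2m+4}` as a nested product
-/

set_option autoImplicit false

namespace Pool.Agent.Lib_helper75.Bent

/-- the sign character -/
def chi (x : ZMod 2) : ℤ := (-1) ^ x.val

lemma chi_add (x y : ZMod 2) : chi (x + y) = chi x * chi y := by
  revert x y; decide

lemma chi_zero : chi 0 = 1 := rfl

lemma abs_chi (x : ZMod 2) : |chi x| = 1 := by
  revert x; decide

lemma sum_chi_mul (c : ZMod 2) : ∑ z : ZMod 2, chi (c * z) = if c = 0 then 2 else 0 := by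
  revert c; decide

/-- the dot product -/
def dot {m : ℕ} (u v : Fin m → ZMod 2) : ZMod 2 := ∑ i, u i * v i

lemma dot_add_left {m : ℕ} (u v w : Fin m → ZMod 2) : dot (u + v) w = dot u w + dot v w := by
  simp [dot, add_mul, Finset.sum_add_distrib]

lemma dot_zero_right {m : ℕ} (u : Fin m → ZMod 2) : dot u 0 = 0 := by
  simp [dot]

lemma dot_zero_left {m : ℕ} (u : Fin m → ZMod 2) : dot 0 u = 0 := by
  simp [dot]

lemma dot_comm {m : ℕ} (u v : Fin m → ZMod 2) : dot u v = dot v u := by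
  simp [dot, mul_comm]

lemma dot_single {m : ℕ} (u : Fin m → ZMod 2) (i : Fin m) : dot u (Pi.single i 1) = u i := by
  simp [dot, Pi.single_apply]

lemma dot_ext {m : ℕ} {u v : Fin m → ZMod 2} (h : ∀ w, dot u w = dot v w) : u = v := by
  funext i
  have := h (Pi.single i 1)
  rwa [dot_single, dot_single] at this

lemma sum_chi_dot {m : ℕ} (c : Fin m → ZMod 2) :
    ∑ w : Fin m → ZMod 2, chi (dot c w) = if c = 0 then 2 ^ m else 0 := by
  have h1 : ∀ w : Fin m → ZMod 2, chi (dot c w) = ∏ i, chi (c i * w i) := by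
    intro w
    unfold dot
    induction (Finset.univ : Finset (Fin m)) using Finset.induction_on with
    | empty => simp [chi_zero]
    | insert a s ha ih => rw [Finset.sum_insert ha, Finset.prod_insert ha, chi_add, ih]
  simp_rw [h1]
  rw [← Fintype.prod_sum (fun i (z : ZMod 2) => chi (c i * z))]
  simp_rw [sum_chi_mul]
  split_ifs with h
  · subst h; simp
  · obtain ⟨i, hi⟩ := Function.ne_iff.1 h
    exact Finset.prod_eq_zero (Finset.mem_univ i) (if_neg (by simpa using hi))

/-- the domain: `F_2^{2m+2t}` as a nested product -/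
def Dom (m : ℕ) : ℕ → Type
  | 0 => (Fin m → ZMod 2) × (Fin m → ZMod 2)
  | (t + 1) => (ZMod 2 × ZMod 2) × Dom m t

instance domFintype (m : ℕ) : (t : ℕ) → Fintype (Dom m t)
  | 0 => inferInstanceAs (Fintype ((Fin m → ZMod 2) × (Fin m → ZMod 2)))
  | (t + 1) =>
    have := domFintype m t
    inferInstanceAs (Fintype ((ZMod 2 × ZMod 2) × Dom m t))

/-- build a point -/
def mk {m t : ℕ} (z z' : ZMod 2) (d : Dom m t) : Dom m (t + 1) := ((z, z'), d)

/-- build a point -/
def mk0 {m : ℕ} (y w : Fin m → ZMod 2) : Dom m 0 := (y, w)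

/-- coordinates -/
def z1 {m t : ℕ} (d : Dom m (t + 1)) : ZMod 2 := d.1.1

/-- coordinates -/
def z2 {m t : ℕ} (d : Dom m (t + 1)) : ZMod 2 := d.1.2

/-- coordinates -/
def tl {m t : ℕ} (d : Dom m (t + 1)) : Dom m t := d.2

/-- coordinates -/
def cy {m : ℕ} (d : Dom m 0) : Fin m → ZMod 2 := d.1

/-- coordinates -/
def cw {m : ℕ} (d : Dom m 0) : Fin m → ZMod 2 := d.2

lemma sum_Dom_succ {m t : ℕ} (f : Dom m (t + 1) → ℤ) :
    ∑ d, f d = ∑ d : Dom m t, ∑ z : ZMod 2, ∑ z' : ZMod 2, f (mk z z' d) := by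
  have h : ∑ d, f d = ∑ p : (ZMod 2 × ZMod 2) × Dom m t, f p := rfl
  rw [h, Fintype.sum_prod_type_right]
  apply Finset.sum_congr rfl
  intro d _
  rw [Fintype.sum_prod_type]
  rfl

lemma sum_Dom_zero {m : ℕ} (f : Dom m 0 → ℤ) :
    ∑ d, f d = ∑ y : Fin m → ZMod 2, ∑ w : Fin m → ZMod 2, f (mk0 y w) := by
  have h : ∑ d, f d = ∑ p : (Fin m → ZMod 2) × (Fin m → ZMod 2), f p := rfl
  rw [h, Fintype.sum_prod_type]
  rfl

/-- the dot product on the domain -/
def dotD {m : ℕ} : (t : ℕ) → Dom m t → Dom m t → ZMod 2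
  | 0, a, x => dot (cy a) (cy x) + dot (cw a) (cw x)
  | (t + 1), a, x => z1 a * z1 x + z2 a * z2 x + dotD t (tl a) (tl x)

/-- identification of the domain with `F_2^n` -/
lemma exists_equiv (m t : ℕ) : ∃ φ : (Fin (2 * m + 2 * t) → ZMod 2) ≃ Dom m t,
    ∀ a x, dotD t (φ a) (φ x) = ∑ i, a i * x i := by
  induction t with
  | zero =>
    let e : Fin m ⊕ Fin m ≃ Fin (2 * m + 2 * 0) :=
      finSumFinEquiv.trans (finCongr (by omega))
    refine ⟨(Equiv.arrowCongr e.symm (Equiv.refl _)).trans (Equiv.sumArrowEquivProdArrow _ _ _), ?_⟩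
    intro a x
    rw [← e.sum_comp, Fintype.sum_sum_type]
    rfl
  | succ t ih =>
    obtain ⟨φ, hφ⟩ := ih
    have hn : 2 * m + 2 * (t + 1) = (2 * m + 2 * t) + 1 + 1 := by ring
    rw [hn]
    let ψ : (Fin ((2 * m + 2 * t) + 1 + 1) → ZMod 2) ≃ Dom m (t + 1) :=
      { toFun := fun a => mk (a 0) (a 1) (φ (fun i => a i.succ.succ))
        invFun := fun d => Fin.cons (z1 d) (Fin.cons (z2 d) (φ.symm (tl d)))
        left_inv := by
          intro a
          funext i
          refine Fin.cases ?_ (fun i => Fin.cases ?_ (fun i => ?_) i) i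
          · rfl
          · rfl
          · simp [tl, mk]
        right_inv := by
          intro d
          apply Prod.ext
          · rfl
          · show φ (fun i => φ.symm (tl d) i) = d.2
            exact φ.apply_symm_apply _ }
    refine ⟨ψ, ?_⟩
    intro a x
    rw [Fin.sum_univ_succ, Fin.sum_univ_succ, ← hφ, ← add_assoc]
    rfl

end Pool.Agent.Lib_helper75.Bent
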