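import Mathlib

/-!
# Bent functions
-/

namespace Pool.Agent.Lib_helper75.Bent

/-- The Walsh–Hadamard transform `W_f(a) = ∑_x (-1)^{f(x) + a·x}` of a Boolean function
`f : F_2^ι → F_2`. -/
def walsh {ι : Type} [Fintype ι] [DecidableEq ι] (f : (ι → ZMod 2) → ZMod 2) (a : ι → ZMod 2) : ℤ :=
  ∑ x : ι → ZMod 2, (-1) ^ (f x + ∑ i, a i * x i).val

/-- A Boolean function in `n` variables (`n` even) is bent if `|W_f(a)| = 2^{n/2}` for all `a`. -/
def IsBent (n : ℕ) (f : (Fin n → ZMod 2) → ZMod 2) : Prop :=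
  ∀ a, |walsh f a| = 2 ^ (n / 2)

/-- The number `|B_n|` of bent functions in `n` variables. -/
noncomputable def numBent (n : ℕ) : ℕ :=
  Nat.card {f : (Fin n → ZMod 2) → ZMod 2 // IsBent n f}

end Pool.Agent.Lib_helper75.Bent
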