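import Mathlib
import Pool.Agent.Lib_helper75.Bent.Defs
import Pool.Agent.Lib_helper75.Bent.Energy
import Pool.Agent.Lib_helper75.Bent.Basic

/-!
# The bent function of a `4 × 4` array of Maiorana–McFarland functions
-/

set_option autoImplicit false

namespace Pool.Agent.Lib_helper75.Bent

/-- `F_2^m` -/
abbrev Y (m : ℕ) : Type := Fin m → ZMod 2

/-- `F_2^m × F_2`: the affine functions on `F_2^m` -/
abbrev H (m : ℕ) : Type := Y m × ZMod 2

/-- Maiorana–McFarland data: `σ y = (π y, g y)` with `π` a permutation -/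
def MM (m : ℕ) : Type := {σ : Y m → H m // Function.Bijective (fun y => (σ y).1)}

/-- evaluation of an affine function -/
def pair {m : ℕ} (h : H m) (w : Y m) : ZMod 2 := dot h.1 w + h.2

lemma pair_add {m : ℕ} (h h' : H m) (w : Y m) : pair (h + h') w = pair h w + pair h' w := by
  simp only [pair, Prod.fst_add, Prod.snd_add, dot_add_left]
  ring

lemma pair_zero {m : ℕ} (w : Y m) : pair (0 : H m) w = 0 := by
  simp [pair, dot_zero_left]

lemma pair_ext {m : ℕ} {h h' : H m} (e : ∀ w, pair h w = pair h' w) : h = h' := by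
  have h0 : h.2 = h'.2 := by
    have := e 0
    simpa [pair, dot_zero_right] using this
  apply Prod.ext _ h0
  apply dot_ext
  intro w
  have := e w
  simp only [pair, h0] at this
  exact add_right_cancel this

/-- the dual Maiorana–McFarland datum -/
noncomputable def inv {m : ℕ} (σ : MM m) : Y m → H m := fun b =>
  ((Equiv.ofBijective _ σ.2).symm b, (σ.1 ((Equiv.ofBijective _ σ.2).symm b)).2)

lemma add_self_zmod2 (x : ZMod 2) : x + x = 0 := by
  revert x; decide

lemma add_self_Y {m : ℕ} (x : Y m) : x + x = 0 := by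
  funext i; exact add_self_zmod2 _

lemma MM_sum {m : ℕ} (σ : MM m) (a b : Y m) :
    ∑ y : Y m, ∑ w : Y m, chi (dot a y + dot b w + pair (σ.1 y) w) =
      2 ^ m * chi (pair (inv σ b) a) := by
  have e1 : ∀ y w : Y m, chi (dot a y + dot b w + pair (σ.1 y) w) =
      chi (dot a y + (σ.1 y).2) * chi (dot (b + (σ.1 y).1) w) := by
    intro y w
    rw [← chi_add]
    congr 1
    simp only [pair, dot_add_left]
    ring
  simp_rw [e1, ← Finset.mul_sum, sum_chi_dot]
  have hy0 : (σ.1 ((Equiv.ofBijective _ σ.2).symm b)).1 = b :=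
    (Equiv.ofBijective _ σ.2).apply_symm_apply b
  rw [Finset.sum_eq_single ((Equiv.ofBijective _ σ.2).symm b)]
  · rw [if_pos (by rw [hy0]; exact add_self_Y b), mul_comm]
    congr 2
    simp only [pair, inv]
    rw [dot_comm]
  · intro y _ hy
    rw [if_neg, mul_zero]
    intro h0
    apply hy
    apply σ.2.1
    show (σ.1 y).1 = (σ.1 ((Equiv.ofBijective _ σ.2).symm b)).1
    rw [hy0]
    have := eq_neg_of_add_eq_zero_right h0
    rw [this]
    exact neg_eq_of_add_eq_zero_right (add_self_Y b)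
  · intro h; exact absurd (Finset.mem_univ _) h

/-- the dual of the bent function `η ↦ η' η'' + x_η` of two variables (`∑ x_η = 0`) -/
def core (x : Quad → ZMod 2) (z z' : ZMod 2) : ZMod 2 :=
  (z + (x (1, 0) + x (0, 0))) * (z' + (x (0, 1) + x (0, 0))) + x (0, 0)

lemma core_sum_aux : ∀ x00 x01 x10 c a b : ZMod 2,
    ∑ z : ZMod 2, ∑ z' : ZMod 2,
      chi ((z + (x10 + x00)) * (z' + (x01 + x00)) + x00 + (a * z + b * z' + c)) =
      2 * chi (a * b + c + (if a = 0 then (if b = 0 then x00 else x01)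
        else (if b = 0 then x10 else x00 + x01 + x10))) := by
  decide

lemma x11_eq (x : Quad → ZMod 2) (hx : ∑ j, x j = 0) :
    x (1, 1) = x (0, 0) + x (0, 1) + x (1, 0) := by
  rw [sum_Quad] at hx
  generalize x (0, 0) = p at *
  generalize x (0, 1) = q at *
  generalize x (1, 0) = r at *
  generalize x (1, 1) = s at *
  revert p q r s
  decide

lemma core_sum (x : Quad → ZMod 2) (hx : ∑ j, x j = 0) (c a b : ZMod 2) :
    ∑ z : ZMod 2, ∑ z' : ZMod 2, chi (core x z z' + (a * z + b * z' + c)) =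
      2 * chi (a * b + c + x (a, b)) := by
  have h := core_sum_aux (x (0, 0)) (x (0, 1)) (x (1, 0)) c a b
  unfold core
  rw [h]
  congr 3
  have h11 := x11_eq x hx
  rcases zmod2_cases a with rfl | rfl <;> rcases zmod2_cases b with rfl | rfl <;> simp [h11]

lemma core_inj (x x' : Quad → ZMod 2) (hx : ∑ j, x j = 0) (hx' : ∑ j, x' j = 0)
    (h : ∀ z z', core x z z' = core x' z z') : x = x' := by
  have h00 := h 0 0
  have h01 := h 0 1
  have h10 := h 1 0
  have h11 := h 1 1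
  simp only [core] at h00 h01 h10 h11
  rw [sum_Quad] at hx hx'
  have key : ∀ p q r s p' q' r' s' : ZMod 2, p + q + (r + s) = 0 → p' + q' + (r' + s') = 0 →
      (0 + (r + p)) * (0 + (q + p)) + p = (0 + (r' + p')) * (0 + (q' + p')) + p' →
      (0 + (r + p)) * (1 + (q + p)) + p = (0 + (r' + p')) * (1 + (q' + p')) + p' →
      (1 + (r + p)) * (0 + (q + p)) + p = (1 + (r' + p')) * (0 + (q' + p')) + p' →
      p = p' ∧ q = q' ∧ r = r' ∧ s = s' := by
    decide
  obtain ⟨e1, e2, e3, e4⟩ := key _ _ _ _ _ _ _ _ hx hx' h00 h01 h10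
  funext j
  obtain ⟨a, b⟩ := j
  rcases zmod2_cases a with rfl | rfl <;> rcases zmod2_cases b with rfl | rfl
  · exact e1
  · exact e2
  · exact e3
  · exact e4

lemma final_sum_aux : ∀ x00 x01 x10 a b : ZMod 2,
    |(chi (0 * 0 + (a * 0 + b * 0) + x00) + chi (0 * 1 + (a * 0 + b * 1) + x01)) +
      (chi (1 * 0 + (a * 1 + b * 0) + x10) +
        chi (1 * 1 + (a * 1 + b * 1) + (x00 + x01 + x10)))| = 2 := by
  decide

lemma final_sum (x : Quad → ZMod 2) (hx : ∑ j, x j = 0) (a b : ZMod 2) :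
    |∑ j : Quad, chi (j.1 * j.2 + (a * j.1 + b * j.2) + x j)| = 2 := by
  have h11 := x11_eq x hx
  rw [sum_Quad, h11]
  exact final_sum_aux _ _ _ _ _

/-- rows: four Maiorana–McFarland data with sum zero -/
def Row (m : ℕ) : Type := {σ : Quad → MM m // ∑ j, (σ j).1 = 0}

/-- the duals of the entries of a row -/
noncomputable def dualRow {m : ℕ} (σ : Row m) : Quad → (Y m → H m) := fun j => inv (σ.1 j)

/-- arrays: four rows such that the duals of each column sum to zero -/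
def Arr (m : ℕ) : Type := {σ : Quad → Row m // ∑ i, dualRow (σ i) = 0}

/-- the values of the row `i` at `(y, w)` -/
def val {m : ℕ} (σ : Arr m) (i : Quad) (y w : Y m) : Quad → ZMod 2 :=
  fun j => pair (((σ.1 i).1 j).1 y) w

lemma sum_pair {m : ℕ} (h : Quad → H m) (w : Y m) : ∑ j, pair (h j) w = pair (∑ j, h j) w := by
  rw [sum_Quad, sum_Quad, pair_add, pair_add, pair_add]

lemma sum_val {m : ℕ} (σ : Arr m) (i : Quad) (y w : Y m) : ∑ j, val σ i y w j = 0 := by
  have h := congrFun (σ.1 i).2 y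
  rw [Finset.sum_apply] at h
  unfold val
  rw [sum_pair, h]
  exact pair_zero w

/-- the bent function of an array -/
def Ff {m : ℕ} (σ : Arr m) (d : Dom m 2) : ZMod 2 :=
  z1 (tl d) * z2 (tl d) +
    core (val σ (z1 (tl d), z2 (tl d)) (cy (tl (tl d))) (cw (tl (tl d)))) (z1 d) (z2 d)

lemma swap_sums {m : ℕ} (A : ℤ) (f : Quad → ℤ) (g : Quad → Y m → Y m → ℤ) :
    ∑ y : Y m, ∑ w : Y m, ∑ z : ZMod 2, ∑ z' : ZMod 2, A * (f (z, z') * g (z, z') y w) =
      A * ∑ j : Quad, f j * ∑ y : Y m, ∑ w : Y m, g j y w := by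
  have h1 : ∀ y w : Y m, ∑ z : ZMod 2, ∑ z' : ZMod 2, A * (f (z, z') * g (z, z') y w) =
      ∑ j : Quad, A * (f j * g j y w) := by
    intro y w
    rw [Fintype.sum_prod_type]
  simp_rw [h1]
  have h2 : ∀ y : Y m, ∑ w : Y m, ∑ j : Quad, A * (f j * g j y w) =
      ∑ j : Quad, ∑ w : Y m, A * (f j * g j y w) := fun y => Finset.sum_comm
  simp_rw [h2]
  rw [Finset.sum_comm]
  simp_rw [Finset.mul_sum]

lemma abs_walsh {m : ℕ} (σ : Arr m) (η : Dom m 2) :
    |∑ d : Dom m 2, chi (Ff σ d + dotD 2 η d)| = 2 ^ (m + 2) := by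
  rw [sum_Dom_succ]
  have e1 : ∀ d : Dom m 1, ∑ z : ZMod 2, ∑ z' : ZMod 2,
      chi (Ff σ (mk z z' d) + dotD 2 η (mk z z' d)) =
      2 * chi (z1 η * z2 η + (z1 d * z2 d + dotD 1 (tl η) d) +
        val σ (z1 d, z2 d) (cy (tl d)) (cw (tl d)) (z1 η, z2 η)) := by
    intro d
    rw [← core_sum _ (sum_val σ _ _ _)]
    apply Finset.sum_congr rfl
    intro z _
    apply Finset.sum_congr rfl
    intro z' _
    congr 1
    have h1 : Ff σ (mk z z' d) = z1 d * z2 d +
      core (val σ (z1 d, z2 d) (cy (tl d)) (cw (tl d))) z z' := rfl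
    have h2 : dotD 2 η (mk z z' d) = z1 η * z + z2 η * z' + dotD 1 (tl η) d := rfl
    rw [h1, h2]
    ring
  simp_rw [e1]
  rw [sum_Dom_succ, sum_Dom_zero]
  have e2 : ∀ (y w : Y m) (z z' : ZMod 2),
      2 * chi (z1 η * z2 η + (z1 (mk z z' (mk0 y w)) * z2 (mk z z' (mk0 y w)) +
        dotD 1 (tl η) (mk z z' (mk0 y w))) +
        val σ (z1 (mk z z' (mk0 y w)), z2 (mk z z' (mk0 y w))) (cy (tl (mk z z' (mk0 y w))))
          (cw (tl (mk z z' (mk0 y w)))) (z1 η, z2 η)) =
      (2 * chi (z1 η * z2 η)) * (chi (z * z' + (z1 (tl η) * z + z2 (tl η) * z')) *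
        chi (dot (cy (tl (tl η))) y + dot (cw (tl (tl η))) w +
          pair (((σ.1 (z, z')).1 (z1 η, z2 η)).1 y) w)) := by
    intro y w z z'
    rw [mul_assoc, ← chi_add, ← chi_add]
    congr 2
    have h1 : dotD 1 (tl η) (mk z z' (mk0 y w)) = z1 (tl η) * z + z2 (tl η) * z' +
      (dot (cy (tl (tl η))) y + dot (cw (tl (tl η))) w) := rfl
    have h2 : val σ (z1 (mk z z' (mk0 y w)), z2 (mk z z' (mk0 y w)))
      (cy (tl (mk z z' (mk0 y w)))) (cw (tl (mk z z' (mk0 y w)))) (z1 η, z2 η) =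
      pair (((σ.1 (z, z')).1 (z1 η, z2 η)).1 y) w := rfl
    have h3 : z1 (mk z z' (mk0 y w)) * z2 (mk z z' (mk0 y w)) = z * z' := rfl
    rw [h1, h2, h3]
    ring
  simp_rw [e2]
  have e3 : ∑ y : Y m, ∑ w : Y m, ∑ z : ZMod 2, ∑ z' : ZMod 2,
      (2 * chi (z1 η * z2 η)) * (chi (z * z' + (z1 (tl η) * z + z2 (tl η) * z')) *
        chi (dot (cy (tl (tl η))) y + dot (cw (tl (tl η))) w +
          pair (((σ.1 (z, z')).1 (z1 η, z2 η)).1 y) w)) =
      (2 * chi (z1 η * z2 η)) * ∑ j : Quad, chi (j.1 * j.2 + (z1 (tl η) * j.1 + z2 (tl η) * j.2)) *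
        ∑ y : Y m, ∑ w : Y m, chi (dot (cy (tl (tl η))) y + dot (cw (tl (tl η))) w +
          pair (((σ.1 j).1 (z1 η, z2 η)).1 y) w) := by
    exact swap_sums _ (fun j => chi (j.1 * j.2 + (z1 (tl η) * j.1 + z2 (tl η) * j.2)))
      (fun j y w => chi (dot (cy (tl (tl η))) y + dot (cw (tl (tl η))) w +
          pair (((σ.1 j).1 (z1 η, z2 η)).1 y) w))
  rw [e3]
  simp_rw [MM_sum]
  have e4 : ∀ j : Quad, chi (j.1 * j.2 + (z1 (tl η) * j.1 + z2 (tl η) * j.2)) *
      (2 ^ m * chi (pair (inv ((σ.1 j).1 (z1 η, z2 η)) (cw (tl (tl η)))) (cy (tl (tl η))))) =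
      2 ^ m * chi (j.1 * j.2 + (z1 (tl η) * j.1 + z2 (tl η) * j.2) +
        pair (inv ((σ.1 j).1 (z1 η, z2 η)) (cw (tl (tl η)))) (cy (tl (tl η)))) := by
    intro j
    rw [chi_add (j.1 * j.2 + (z1 (tl η) * j.1 + z2 (tl η) * j.2))]
    ring
  simp_rw [e4]
  rw [← Finset.mul_sum, abs_mul, abs_mul, abs_mul, abs_chi, final_sum]
  · rw [abs_of_nonneg (by positivity : (0 : ℤ) ≤ 2 ^ m)]
    norm_num
    ring
  · have h := congrFun (congrFun σ.2 (z1 η, z2 η)) (cw (tl (tl η)))
    rw [Finset.sum_apply, Finset.sum_apply] at h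
    rw [sum_pair]
    have h5 : ∑ j, inv ((σ.1 j).1 (z1 η, z2 η)) (cw (tl (tl η))) = 0 := h
    rw [h5]
    exact pair_zero _

lemma Ff_injective {m : ℕ} : Function.Injective (Ff (m := m)) := by
  intro σ σ' h
  have h1 : ∀ i y w, val σ i y w = val σ' i y w := by
    intro i y w
    apply core_inj _ _ (sum_val σ i y w) (sum_val σ' i y w)
    intro z z'
    have e := congrFun h (mk z z' (mk i.1 i.2 (mk0 y w)))
    exact add_left_cancel e
  apply Subtype.ext
  funext i
  apply Subtype.ext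
  funext j
  apply Subtype.ext
  funext y
  apply pair_ext
  intro w
  exact congrFun (h1 i y w) j

end Pool.Agent.Lib_helper75.Bent
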