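import Mathlib
import Pool.Agent.Lib_helper75.Bent.Array

/-!
# The lower bound
-/

set_option autoImplicit false

namespace Pool.Agent.Lib_helper75.Bent

instance finiteMM (m : ℕ) : Finite (MM m) := by
  unfold MM; infer_instance

instance finiteRow (m : ℕ) : Finite (Row m) := by
  unfold Row; infer_instance

instance finiteArr (m : ℕ) : Finite (Arr m) := by
  unfold Arr; infer_instance

lemma numBent_ge (m : ℕ) : Nat.card (Arr m) ≤ numBent (2 * m + 2 * 2) := by
  classical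
  obtain ⟨φ, hφ⟩ := exists_equiv m 2
  unfold numBent
  have hb : ∀ σ : Arr m, IsBent (2 * m + 2 * 2) (fun x => Ff σ (φ x)) := by
    intro σ a
    have h0 := abs_walsh σ (φ a)
    have h1 : ∑ d : Dom m 2, chi (Ff σ d + dotD 2 (φ a) d) = walsh (fun x => Ff σ (φ x)) a := by
      unfold walsh
      refine (Fintype.sum_equiv φ _ _ ?_).symm
      intro x
      rw [hφ]
      rfl
    rw [← h1, h0]
    congr 1
    omega
  have : Finite {f : (Fin (2 * m + 2 * 2) → ZMod 2) → ZMod 2 // IsBent (2 * m + 2 * 2) f} :=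
    Subtype.finite
  refine Nat.card_le_card_of_injective
    (fun σ => (⟨fun x => Ff σ (φ x), hb σ⟩ :
      {f : (Fin (2 * m + 2 * 2) → ZMod 2) → ZMod 2 // IsBent (2 * m + 2 * 2) f})) ?_
  intro σ σ' h
  have h1 := congrArg Subtype.val h
  simp only at h1
  apply Ff_injective
  funext d
  have := congrFun h1 (φ.symm d)
  simpa using this

/-- Maiorana–McFarland data are pairs of a permutation and a function -/
noncomputable def mmEquiv (m : ℕ) : MM m ≃ (Equiv.Perm (Y m)) × (Y m → ZMod 2) where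
  toFun σ := (Equiv.ofBijective _ σ.2, fun y => (σ.1 y).2)
  invFun p := ⟨fun y => (p.1 y, p.2 y), p.1.bijective⟩
  left_inv := by
    rintro ⟨σ, hσ⟩
    rfl
  right_inv := by
    rintro ⟨π, g⟩
    refine Prod.ext ?_ rfl
    ext y : 1
    rfl

lemma card_MM (m : ℕ) : Nat.card (MM m) = (2 ^ m).factorial * 2 ^ (2 ^ m) := by
  classical
  rw [Nat.card_congr (mmEquiv m), Nat.card_prod, Nat.card_eq_fintype_card,
    Nat.card_eq_fintype_card, Fintype.card_perm]
  simp [ZMod.card]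

lemma card_G (m : ℕ) : Nat.card (Y m → H m) = (2 ^ m * 2) ^ (2 ^ m) := by
  classical
  rw [Nat.card_eq_fintype_card]
  simp [ZMod.card]

lemma card_G4 (m : ℕ) : Nat.card (Quad → (Y m → H m)) = ((2 ^ m * 2) ^ (2 ^ m)) ^ 4 := by
  classical
  rw [← card_G, Nat.card_eq_fintype_card, Nat.card_eq_fintype_card, Fintype.card_fun]
  simp [ZMod.card]

lemma add_self_H {m : ℕ} (x : H m) : x + x = 0 :=
  Prod.ext (add_self_Y _) (add_self_zmod2 _)

lemma row_bound (m : ℕ) : ((Nat.card (MM m) : ℕ) : ℝ) ^ 4 ≤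
    (Nat.card (Y m → H m) : ℝ) * (Nat.card (Row m) : ℝ) := by
  classical
  have : Fintype (MM m) := Fintype.ofFinite _
  exact energy (P := MM m) (Γ := Y m → H m) (fun x => by funext y; exact add_self_H _)
    (fun σ => σ.1)

lemma arr_bound (m : ℕ) : ((Nat.card (Row m) : ℕ) : ℝ) ^ 4 ≤
    (Nat.card (Quad → (Y m → H m)) : ℝ) * (Nat.card (Arr m) : ℝ) := by
  classical
  have : Fintype (Row m) := Fintype.ofFinite _
  exact energy (P := Row m) (Γ := Quad → (Y m → H m))
    (fun x => by funext j y; exact add_self_H _) dualRow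

lemma arr_lower (m : ℕ) : (((2 ^ m).factorial * 2 ^ (2 ^ m) : ℕ) : ℝ) ^ 16 ≤
    ((((2 ^ m * 2) ^ (2 ^ m) : ℕ) : ℝ)) ^ 8 * (Nat.card (Arr m) : ℝ) := by
  have h1 := row_bound m
  have h2 := arr_bound m
  rw [card_MM, card_G] at h1
  rw [card_G4] at h2
  set A : ℝ := (((2 ^ m).factorial * 2 ^ (2 ^ m) : ℕ) : ℝ) with hA
  set G : ℝ := ((((2 ^ m * 2) ^ (2 ^ m) : ℕ) : ℝ)) with hG
  have hA0 : 0 ≤ A := Nat.cast_nonneg _
  have hG0 : 0 ≤ G := Nat.cast_nonneg _
  have h3 : ((((2 ^ m * 2) ^ (2 ^ m)) ^ 4 : ℕ) : ℝ) = G ^ 4 := by rw [hG]; push_cast; ring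
  rw [h3] at h2
  calc A ^ 16 = (A ^ 4) ^ 4 := by ring
    _ ≤ (G * (Nat.card (Row m) : ℝ)) ^ 4 := pow_le_pow_left₀ (by positivity) h1 4
    _ = G ^ 4 * (Nat.card (Row m) : ℝ) ^ 4 := by ring
    _ ≤ G ^ 4 * (G ^ 4 * (Nat.card (Arr m) : ℝ)) := mul_le_mul_of_nonneg_left h2 (by positivity)
    _ = G ^ 8 * (Nat.card (Arr m) : ℝ) := by ring

/-- `log M! ≥ M log M - M` -/
lemma log_factorial_ge (M : ℕ) (hM : 0 < M) :
    (M : ℝ) * Real.log M - M ≤ Real.log (M.factorial : ℝ) := by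
  have h := Real.pow_div_factorial_le_exp (M : ℝ) (Nat.cast_nonneg _) M
  have hf : (0 : ℝ) < (M.factorial : ℝ) := by exact_mod_cast M.factorial_pos
  have hM' : (0 : ℝ) < (M : ℝ) := by exact_mod_cast hM
  have h2 : Real.log ((M : ℝ) ^ M / (M.factorial : ℝ)) ≤ M := by
    have := Real.log_le_log (by positivity) h
    rwa [Real.log_exp] at this
  rw [Real.log_div (by positivity) (by positivity), Real.log_pow] at h2
  linarith

lemma log_arr (m : ℕ) :
    (2 : ℝ) ^ m * (8 * (m + 1) * Real.log 2 - 16) ≤ Real.log (Nat.card (Arr m) : ℝ) := by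
  have h := arr_lower m
  have hfac : (0 : ℝ) < ((2 ^ m).factorial : ℝ) := by exact_mod_cast (2 ^ m).factorial_pos
  have hpos : (0 : ℝ) < (Nat.card (Arr m) : ℝ) := by
    have h1 : (0 : ℝ) < (((2 ^ m).factorial * 2 ^ (2 ^ m) : ℕ) : ℝ) ^ 16 := by
      push_cast; positivity
    by_contra hc
    have hz : (Nat.card (Arr m) : ℝ) = 0 :=
      le_antisymm (not_lt.1 hc) (Nat.cast_nonneg _)
    rw [hz, mul_zero] at h
    linarith
  have h1 := Real.log_le_log (by push_cast; positivity) h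
  push_cast at h1
  rw [Real.log_pow, Real.log_mul (by positivity) (by positivity), Real.log_mul (by positivity) hpos.ne',
    Real.log_pow, Real.log_pow, Real.log_pow, Real.log_mul (by positivity) (by positivity),
    Real.log_pow] at h1
  have h2 := log_factorial_ge (2 ^ m) (by positivity)
  push_cast at h2 h1
  rw [Real.log_pow] at h2
  nlinarith [h1, h2]

end Pool.Agent.Lib_helper75.Bent
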