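import Mathlib
import Pool.Agent.Lib_helper75.Bent.Main

/-!
# `log₂ |B_n| ≥ (n - 8) 2^{n/2}`
-/

set_option autoImplicit false

namespace Pool.Agent.Lib_helper75.Bent

lemma logb_natCast_nonneg (k : ℕ) : 0 ≤ Real.logb 2 (k : ℝ) := by
  rcases Nat.eq_zero_or_pos k with rfl | hk
  · simp
  · exact Real.logb_nonneg (by norm_num) (by exact_mod_cast hk)

theorem main_bound (n : ℕ) (hn : Even n) :
    ((n : ℝ) - 8) * 2 ^ (n / 2) ≤ Real.logb 2 (numBent n : ℝ) := by
  rcases Nat.lt_or_ge n 4 with h4 | h4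
  · have h1 : ((n : ℝ) - 8) ≤ 0 := by
      have : (n : ℝ) < 4 := by exact_mod_cast h4
      linarith
    exact le_trans (mul_nonpos_of_nonpos_of_nonneg h1 (by positivity)) (logb_natCast_nonneg _)
  · obtain ⟨m, rfl⟩ : ∃ m, n = 2 * m + 2 * 2 := by
      obtain ⟨r, hr⟩ := hn
      exact ⟨r - 2, by omega⟩
    have e1 : (2 * m + 2 * 2) / 2 = m + 2 := by omega
    rw [e1]
    have h1 := log_arr m
    have hlog2 : (0.6931471803 : ℝ) < Real.log 2 := Real.log_two_gt_d9
    have hM : (0 : ℝ) < 2 ^ m := by positivity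
    have hA : (0 : ℝ) < (Nat.card (Arr m) : ℝ) := by
      have h := arr_lower m
      have hfac : (0 : ℝ) < ((2 ^ m).factorial : ℝ) := by exact_mod_cast (2 ^ m).factorial_pos
      by_contra hc
      have hz : (Nat.card (Arr m) : ℝ) = 0 := le_antisymm (not_lt.1 hc) (Nat.cast_nonneg _)
      rw [hz, mul_zero] at h
      have h1 : (0 : ℝ) < (((2 ^ m).factorial * 2 ^ (2 ^ m) : ℕ) : ℝ) ^ 16 := by
        push_cast; positivity
      linarith
    have h2 : Real.log (Nat.card (Arr m) : ℝ) ≤ Real.log (numBent (2 * m + 2 * 2) : ℝ) :=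
      Real.log_le_log hA (by exact_mod_cast numBent_ge m)
    rw [Real.logb, le_div_iff₀ (by linarith)]
    refine le_trans ?_ (h1.trans h2)
    push_cast
    rw [pow_add]
    have h3 : (2 : ℝ) ^ m * (8 * (↑m + 1) * Real.log 2 - 16) -
        (2 * ↑m + 2 * 2 - 8) * (2 ^ m * 2 ^ 2) * Real.log 2 = 2 ^ m * (24 * Real.log 2 - 16) := by
      ring
    have h4 : 0 ≤ (2 : ℝ) ^ m * (24 * Real.log 2 - 16) := by
      apply mul_nonneg hM.le
      linarith
    linarith

end Pool.Agent.Lib_helper75.Bent
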